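import Mathlib

/-!
Polynomial algebra in three variables for the counterexample to `MP_ac8f1a_ag`.
-/

namespace Pool.Agent.Lib.MP_ac8f1a_ag

open MvPolynomial

universe u

variable {K : Type u} [Field K]

/-- substitution of `t` for the variable `i` -/
noncomputable def sbst {n : ℕ} (i : Fin n) (t : MvPolynomial (Fin n) K) :
    MvPolynomial (Fin n) K →ₐ[K] MvPolynomial (Fin n) K :=
  aeval (Function.update X i t)

lemma sbst_self {n : ℕ} (i : Fin n) (t : MvPolynomial (Fin n) K) : sbst i t (X i) = t := by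
  simp [sbst]

lemma sbst_ne {n : ℕ} (i j : Fin n) (h : j ≠ i) (t : MvPolynomial (Fin n) K) :
    sbst i t (X j) = X j := by
  simp [sbst, Function.update_of_ne h]

lemma dvd_sub_sbst {n : ℕ} (i : Fin n) (t p : MvPolynomial (Fin n) K) :
    X i - t ∣ p - sbst i t p := by
  induction p using MvPolynomial.induction_on with
  | C a => simp [sbst, algebraMap_eq]
  | add p q hp hq =>
    rw [map_add]
    have : p + q - (sbst i t p + sbst i t q) = (p - sbst i t p) + (q - sbst i t q) := by ring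
    rw [this]
    exact dvd_add hp hq
  | mul_X p j hp =>
    rw [map_mul]
    by_cases h : j = i
    · subst h
      rw [sbst_self]
      have : p * X j - sbst j t p * t = (p - sbst j t p) * X j + sbst j t p * (X j - t) := by ring
      rw [this]
      exact dvd_add (Dvd.dvd.mul_right hp _) (Dvd.intro_left _ rfl)
    · rw [sbst_ne i j h]
      have : p * X j - sbst i t p * X j = (p - sbst i t p) * X j := by ring
      rw [this]
      exact Dvd.dvd.mul_right hp _

lemma dvd_of_sbst_eq_zero {n : ℕ} {i : Fin n} {t p : MvPolynomial (Fin n) K}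
    (h : sbst i t p = 0) : X i - t ∣ p := by
  have := dvd_sub_sbst i t p
  rwa [h, sub_zero] at this

/-- if `X i - t` divides `c * p` and `c` does not vanish under the substitution, then it
divides `p` -/
lemma dvd_of_dvd_mul_of_sbst_ne {n : ℕ} {i : Fin n} {t c p : MvPolynomial (Fin n) K}
    (ht : sbst i t t = t) (h : X i - t ∣ c * p) (hc : sbst i t c ≠ 0) : X i - t ∣ p := by
  obtain ⟨w, hw⟩ := h
  have h1 : sbst i t (c * p) = 0 := by
    rw [hw, map_mul, map_sub, sbst_self, ht, sub_self, zero_mul]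
  rw [map_mul] at h1
  rcases mul_eq_zero.mp h1 with h2 | h2
  · exact absurd h2 hc
  · exact dvd_of_sbst_eq_zero h2

section three

abbrev S3 (K : Type u) [Field K] : Type u := MvPolynomial (Fin 3) K

/-- first quadric -/
noncomputable def q1 : S3 K := X 0 ^ 2 - X 2 ^ 2
/-- second quadric -/
noncomputable def q2 : S3 K := X 1 ^ 2 - X 2 ^ 2
/-- third quadric -/
noncomputable def q3 : S3 K := (X 0 + X 1) ^ 2 - X 2 ^ 2

/-- evaluation of a polynomial at an explicit point, to detect non-vanishing -/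
lemma ne_zero_of_eval {n : ℕ} (p : MvPolynomial (Fin n) K) (v : Fin n → K) (h : eval v p ≠ 0) :
    p ≠ 0 := by
  rintro rfl
  simp at h


lemma q1_eq : (q1 : S3 K) = (X 0 - X 2) * (X 0 - -X 2) := by
  simp only [q1]; ring

lemma q2_eq : (q2 : S3 K) = (X 1 - X 2) * (X 1 - -X 2) := by
  simp only [q2]; ring

lemma q3_eq : (q3 : S3 K) = (X 0 - (X 2 - X 1)) * (X 0 - (-X 2 - X 1)) := by
  simp only [q3]; ring

/-- a product of two different linear factors divides if both do -/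
lemma mul_dvd_of_dvd {t t' p : S3 K} (i : Fin 3) (ht : sbst i t t = t)
    (h1 : X i - t' ∣ p) (h2' : X i - t ∣ p) (hne : t - t' ≠ 0) (ht' : sbst i t t' = t') :
    (X i - t') * (X i - t) ∣ p := by
  obtain ⟨w, hw⟩ := h1
  have : X i - t ∣ w := by
    refine dvd_of_dvd_mul_of_sbst_ne ht (c := X i - t') (by rw [← hw]; exact h2') ?_
    rw [map_sub, sbst_self, ht']
    exact hne
  obtain ⟨w', hw'⟩ := this
  exact ⟨w', by rw [hw, hw']; ring⟩

lemma sb02 (t : S3 K) : sbst 0 t (X 2) = X 2 := sbst_ne 0 2 (by decide) t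
lemma sb01 (t : S3 K) : sbst 0 t (X 1) = X 1 := sbst_ne 0 1 (by decide) t
lemma sb12 (t : S3 K) : sbst 1 t (X 2) = X 2 := sbst_ne 1 2 (by decide) t
lemma sb10 (t : S3 K) : sbst 1 t (X 0) = X 0 := sbst_ne 1 0 (by decide) t
lemma sb20 (t : S3 K) : sbst 2 t (X 0) = X 0 := sbst_ne 2 0 (by decide) t
lemma sb21 (t : S3 K) : sbst 2 t (X 1) = X 1 := sbst_ne 2 1 (by decide) t

lemma q2_ne_zero : (q2 : S3 K) ≠ 0 := by
  apply ne_zero_of_eval _ ![0, 1, 0]
  simp [q2]

lemma q1_ne_zero : (q1 : S3 K) ≠ 0 := by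
  apply ne_zero_of_eval _ ![1, 0, 0]
  simp [q1]

lemma q3_ne_zero : (q3 : S3 K) ≠ 0 := by
  apply ne_zero_of_eval _ ![1, 0, 0]
  simp [q3]

lemma q1_dvd (h2 : (2 : K) ≠ 0) {p : S3 K} (ha : X 0 - X 2 ∣ p) (hb : X 0 + X 2 ∣ p) :
    q1 ∣ p := by
  rw [q1_eq]
  refine mul_dvd_of_dvd 0 ?_ ha (by rwa [sub_neg_eq_add]) ?_ ?_
  · rw [map_neg, sb02]
  · apply ne_zero_of_eval _ ![0, 0, 1]
    simp only [map_sub, map_neg, eval_X, Matrix.cons_val]
    intro h
    apply h2
    linear_combination -h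
  · rw [sb02]

lemma q2_dvd (h2 : (2 : K) ≠ 0) {p : S3 K} (ha : X 1 - X 2 ∣ p) (hb : X 1 + X 2 ∣ p) :
    q2 ∣ p := by
  rw [q2_eq]
  refine mul_dvd_of_dvd 1 ?_ ha (by rwa [sub_neg_eq_add]) ?_ ?_
  · rw [map_neg, sb12]
  · apply ne_zero_of_eval _ ![0, 0, 1]
    simp only [map_sub, map_neg, eval_X, Matrix.cons_val]
    intro h
    apply h2
    linear_combination -h
  · rw [sb12]

lemma q3_dvd (h2 : (2 : K) ≠ 0) {p : S3 K} (ha : X 0 + X 1 - X 2 ∣ p)
    (hb : X 0 + X 1 + X 2 ∣ p) : q3 ∣ p := by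
  rw [q3_eq]
  refine mul_dvd_of_dvd 0 ?_ ?_ ?_ ?_ ?_
  · rw [map_sub, map_neg, sb02, sb01]
  · convert ha using 1; ring
  · convert hb using 1; ring
  · apply ne_zero_of_eval _ ![0, 0, 1]
    simp only [map_sub, map_neg, eval_X, Matrix.cons_val]
    intro h
    apply h2
    linear_combination -h
  · rw [map_sub, sb02, sb01]

lemma q1_dvd_of_dvd_q2_mul (h2 : (2 : K) ≠ 0) {p : S3 K} (h : q1 ∣ q2 * p) : q1 ∣ p := by
  rw [q1_eq] at h
  refine q1_dvd h2 ?_ ?_
  · refine dvd_of_dvd_mul_of_sbst_ne (c := q2) (sb02 _) ((Dvd.intro _ rfl).trans h) ?_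
    simp only [q2, map_sub, map_pow, sb01, sb02]
    exact q2_ne_zero
  · rw [← sub_neg_eq_add]
    refine dvd_of_dvd_mul_of_sbst_ne (c := q2) (by rw [map_neg, sb02])
      ((Dvd.intro_left _ rfl).trans h) ?_
    simp only [q2, map_sub, map_pow, sb01, sb02]
    exact q2_ne_zero

lemma q3_dvd_of_dvd_q2_mul (h2 : (2 : K) ≠ 0) {p : S3 K} (h : q3 ∣ q2 * p) : q3 ∣ p := by
  rw [q3_eq] at h
  refine q3_dvd h2 ?_ ?_
  · have : X 0 - (X 2 - X 1) ∣ p := by
      refine dvd_of_dvd_mul_of_sbst_ne (c := q2) (by rw [map_sub, sb01, sb02])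
        ((Dvd.intro _ rfl).trans h) ?_
      simp only [q2, map_sub, map_pow, sb01, sb02]
      exact q2_ne_zero
    convert this using 1; ring
  · have : X 0 - (-X 2 - X 1) ∣ p := by
      refine dvd_of_dvd_mul_of_sbst_ne (c := q2) (by rw [map_sub, map_neg, sb01, sb02])
        ((Dvd.intro_left _ rfl).trans h) ?_
      simp only [q2, map_sub, map_pow, sb01, sb02]
      exact q2_ne_zero
    convert this using 1; ring

/-- multiplication by `z` is injective modulo `(q1, q2)` -/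
lemma z_regular {c u v : S3 K} (h : X 2 * c = q1 * u + q2 * v) :
    ∃ u' v', c = q1 * u' + q2 * v' := by
  obtain ⟨u', hu⟩ := dvd_sub_sbst (2 : Fin 3) 0 u
  obtain ⟨v', hv⟩ := dvd_sub_sbst (2 : Fin 3) 0 v
  rw [sub_zero] at hu hv
  have h0 := congrArg (sbst (2 : Fin 3) 0) h
  simp only [q1, q2, map_mul, map_add, map_sub, map_pow, sbst_self, sb20, sb21] at h0
  set eu := sbst (2 : Fin 3) 0 u
  set ev := sbst (2 : Fin 3) 0 v
  have h1 : X 0 - 0 ∣ X 1 ^ 2 * ev := ⟨-(X 0 * eu), by linear_combination -h0⟩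
  have h1' : X 0 - 0 ∣ ev := by
    refine dvd_of_dvd_mul_of_sbst_ne (map_zero _) h1 ?_
    rw [map_pow, sb01]
    exact pow_ne_zero _ (X_ne_zero _)
  obtain ⟨w, hw⟩ := h1'
  have h2 : X 0 * (X 0 * eu + X 1 ^ 2 * w) = 0 := by
    rw [hw] at h0
    linear_combination -h0
  have h3 : X 0 * eu + X 1 ^ 2 * w = 0 := by
    rcases mul_eq_zero.mp h2 with h | h
    · exact absurd h (X_ne_zero _)
    · exact h
  have h4 : X 0 - 0 ∣ w := by
    refine dvd_of_dvd_mul_of_sbst_ne (c := X 1 ^ 2) (map_zero _)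
      ⟨-eu, by linear_combination h3⟩ ?_
    rw [map_pow, sb01]
    exact pow_ne_zero _ (X_ne_zero _)
  obtain ⟨s, hs⟩ := h4
  have h5 : X 0 * (eu + X 1 ^ 2 * s) = 0 := by
    rw [hs] at h3
    linear_combination h3
  have h6 : eu = -(X 1 ^ 2 * s) := by
    rcases mul_eq_zero.mp h5 with h | h
    · exact absurd h (X_ne_zero _)
    · linear_combination h
  have h7 : ev = X 0 ^ 2 * s := by
    rw [hw, hs]; ring
  refine ⟨u' - X 2 * s, v' + X 2 * s, ?_⟩
  have h8 : X 2 * (c - (q1 * (u' - X 2 * s) + q2 * (v' + X 2 * s))) = 0 := by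
    have hu' : u = -(X 1 ^ 2 * s) + X 2 * u' := by rw [← h6]; linear_combination hu
    have hv' : v = X 0 ^ 2 * s + X 2 * v' := by rw [← h7]; linear_combination hv
    rw [mul_sub, h, hu', hv']
    simp only [q1, q2]
    ring
  rcases mul_eq_zero.mp h8 with h | h
  · exact absurd h (X_ne_zero _)
  · linear_combination h

lemma z_pow_regular {c : S3 K} (n : ℕ) (h : ∃ u v, X 2 ^ n * c = q1 * u + q2 * v) :
    ∃ u' v', c = q1 * u' + q2 * v' := by
  induction n with
  | zero => simpa using h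
  | succ n ih =>
    apply ih
    obtain ⟨u, v, h⟩ := h
    apply z_regular (u := u) (v := v)
    rw [← h]; ring

/-- `q3` is regular modulo `(q1, q2)` -/
lemma q3_regular (h3 : (3 : K) ≠ 0) {a b c : S3 K} (h : q1 * a + q2 * b = q3 * c) :
    ∃ u v, c = q1 * u + q2 * v := by
  apply z_pow_regular 4
  set r : S3 K := 2 * X 0 * X 1 - X 2 ^ 2 with hr
  have hC : (C (3 : K)⁻¹ : S3 K) * 3 = 1 := by
    have : (3 : S3 K) = C 3 := (map_ofNat C 3).symm
    rw [this, ← C_mul, inv_mul_cancel₀ h3, C_1]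
  refine ⟨C (3 : K)⁻¹ * (r * a - (r + 4 * X 1 ^ 2) * c),
    C (3 : K)⁻¹ * (r * b - (r + 4 * X 2 ^ 2) * c), ?_⟩
  have key : 3 * (X 2 ^ 4 * c) = q1 * (r * a - (r + 4 * X 1 ^ 2) * c)
      + q2 * (r * b - (r + 4 * X 2 ^ 2) * c) := by
    have e1 : q1 * (r * a - (r + 4 * X 1 ^ 2) * c) + q2 * (r * b - (r + 4 * X 2 ^ 2) * c)
      = r * (q1 * a + q2 * b) - (q1 * (r + 4 * X 1 ^ 2) + q2 * (r + 4 * X 2 ^ 2)) * c := by ring
    rw [e1, h]
    simp only [hr, q1, q2, q3]
    ring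
  calc X 2 ^ 4 * c = (C (3 : K)⁻¹ * 3) * (X 2 ^ 4 * c) := by rw [hC, one_mul]
    _ = C (3 : K)⁻¹ * (3 * (X 2 ^ 4 * c)) := by ring
    _ = _ := by rw [key]; ring

/-- exactness of the Koszul complex in the form needed -/
lemma koszul (h2 : (2 : K) ≠ 0) (h3 : (3 : K) ≠ 0) {a b c : S3 K}
    (h : q1 * a + q2 * b = q3 * c) :
    ∃ u v w, a = q3 * u + q2 * w ∧ b = q3 * v - q1 * w := by
  obtain ⟨u, v, hc⟩ := q3_regular h3 h
  have e : q1 * (a - q3 * u) = q2 * (q3 * v - b) := by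
    rw [hc] at h
    linear_combination h
  have hd : q1 ∣ q3 * v - b := q1_dvd_of_dvd_q2_mul h2 ⟨_, e.symm⟩
  obtain ⟨w, hw⟩ := hd
  refine ⟨u, v, w, ?_, ?_⟩
  · have : q1 * (a - q3 * u - q2 * w) = 0 := by
      rw [hw] at e
      linear_combination e
    rcases mul_eq_zero.mp this with h | h
    · exact absurd h q1_ne_zero
    · linear_combination h
  · linear_combination -hw

/-- the relations -/
lemma koszul2 (h2 : (2 : K) ≠ 0) {u v w : S3 K}
    (ha : q3 * u + q2 * w = 0) (hb : q3 * v - q1 * w = 0) :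
    ∃ t, u = -q2 * t ∧ v = q1 * t ∧ w = q3 * t := by
  have hd : q3 ∣ w := q3_dvd_of_dvd_q2_mul h2 ⟨-u, by linear_combination ha⟩
  obtain ⟨t, ht⟩ := hd
  refine ⟨t, ?_, ?_, ht⟩
  · have : q3 * (u + q2 * t) = 0 := by
      rw [ht] at ha; linear_combination ha
    rcases mul_eq_zero.mp this with h | h
    · exact absurd h q3_ne_zero
    · linear_combination h
  · have : q3 * (v - q1 * t) = 0 := by
      rw [ht] at hb; linear_combination hb
    rcases mul_eq_zero.mp this with h | h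
    · exact absurd h q3_ne_zero
    · linear_combination h

end three

end Pool.Agent.Lib.MP_ac8f1a_ag
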