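import Mathlib

/-!
Definitions for the counterexample to `MP_ac8f1a_ag`.
-/

namespace Pool.Agent.Lib.MP_ac8f1a_ag

open MvPolynomial

universe u

/-- A central hyperplane arrangement in `K^l`, given by linear forms
`form i` (one for every hyperplane), which are nonzero and pairwise non-proportional. -/
structure CentralArrangement (K : Type u) [Field K] (l : ℕ) where
  /-- number of hyperplanes -/
  card : ℕ
  /-- the defining linear forms -/
  form : Fin card → MvPolynomial (Fin l) K
  isLinear : ∀ i, (form i).IsHomogeneous 1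
  ne_zero : ∀ i, form i ≠ 0
  pairwise : ∀ i j, i ≠ j → ∀ c : K, form i ≠ C c * form j

variable {K : Type u} [Field K] {l : ℕ}

/-- The derivations of the polynomial ring `K[x_1, ..., x_l]`. -/
abbrev Der (K : Type u) [Field K] (l : ℕ) : Type u :=
  Derivation K (MvPolynomial (Fin l) K) (MvPolynomial (Fin l) K)

/-- `Q`, the product of the defining linear forms. -/
noncomputable def CentralArrangement.Q (A : CentralArrangement K l) : MvPolynomial (Fin l) K :=
  ∏ i, A.form i

/-- The module `D(A)` of logarithmic derivations. -/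
def CentralArrangement.D (A : CentralArrangement K l) :
    Submodule (MvPolynomial (Fin l) K) (Der K l) where
  carrier := {θ | ∀ i, A.form i ∣ θ (A.form i)}
  add_mem' := by
    intro a b ha hb i
    simpa using dvd_add (ha i) (hb i)
  zero_mem' := by
    intro i
    simp
  smul_mem' := by
    intro c x hx i
    simpa using Dvd.dvd.mul_left (hx i) c

/-- A derivation is homogeneous of (polynomial) degree `d` if all its coefficients `θ(x_j)` are
homogeneous of degree `d`. -/
def IsHomogeneousDer (θ : Der K l) (d : ℕ) : Prop :=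
  ∀ j, (θ (X j)).IsHomogeneous d

/-- The matrix `M` with entries `M_{ij} = θ_i(x_j)`. -/
noncomputable def coeffMatrix (θ : Fin (l + 1) → Der K l) :
    Matrix (Fin (l + 1)) (Fin l) (MvPolynomial (Fin l) K) :=
  Matrix.of fun i j => θ i (X j)

/-- `h` lies in `S_{>0}`: it is homogeneous of positive degree. -/
def IsPosHomogeneous (h : MvPolynomial (Fin l) K) : Prop :=
  ∃ n : ℕ, 0 < n ∧ h.IsHomogeneous n

/-- The polynomials `f i` have a non-trivial common divisor modulo `f₀`:
some `h` in `S_{>0}` satisfies `f i ∈ (h, f₀)` for all `i`. -/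
def HasCommonDivisorMod {ι : Type*} (f : ι → MvPolynomial (Fin l) K)
    (f₀ : MvPolynomial (Fin l) K) : Prop :=
  ∃ h, IsPosHomogeneous h ∧ ∀ i, f i ∈ Ideal.span {h, f₀}

/-- The hypotheses (H) of the problem: the `θ i` are homogeneous elements of `D(A)`,
`(-1)^i det M_i = g_i Q` (the index `i` runs over `1, ..., l + 1` in the problem, here over
`Fin (l + 1)`), the last `g` is nonzero, the others are in `S_{>0}` and have no non-trivial common
divisor modulo the last one, and `D(A)` has projective dimension `1`. -/
structure HypH (A : CentralArrangement K l) (θ : Fin (l + 1) → Der K l)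
    (g : Fin (l + 1) → MvPolynomial (Fin l) K) : Prop where
  mem : ∀ i, θ i ∈ A.D
  homog : ∀ i, ∃ d, IsHomogeneousDer (θ i) d
  det_eq : ∀ i : Fin (l + 1),
    (-1) ^ ((i : ℕ) + 1) * ((coeffMatrix θ).submatrix i.succAbove id).det = g i * A.Q
  last_ne_zero : g (Fin.last l) ≠ 0
  pos : ∀ i : Fin l, IsPosHomogeneous (g i.castSucc)
  no_divisor : ¬ HasCommonDivisorMod (fun i : Fin l => g i.castSucc) (g (Fin.last l))
  pd_eq_one : CategoryTheory.projectiveDimension (ModuleCat.of (MvPolynomial (Fin l) K) A.D) = 1

/-- The conclusion of Q1: `D(A)` is minimally generated by homogeneous `η i` of degree `d i`,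
`i = 1, ..., p = l + r`, and has a graded minimal free resolution
`0 → ⨁_{i > l} S[-d_i-1] → ⨁_i S[-d_i] → D(A) → 0`.
That is: the `η i` span `D(A)`, and the module of relations between them has a basis
`σ j`, `j = l+1, ..., p`, where `σ j` is homogeneous of degree `d_j + 1`
(so its `i`-th entry is homogeneous of degree `d_j + 1 - d_i`, and is zero if this is negative)
and has all entries in the irrelevant maximal ideal (minimality). -/
def HasShape (A : CentralArrangement K l) : Prop :=
  ∃ (r : ℕ) (d : Fin (l + r) → ℕ) (η : Fin (l + r) → Der K l)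
    (σ : Fin r → Fin (l + r) → MvPolynomial (Fin l) K),
    (∀ i, IsHomogeneousDer (η i) (d i)) ∧
    Submodule.span (MvPolynomial (Fin l) K) (Set.range η) = A.D ∧
    LinearIndependent (MvPolynomial (Fin l) K) σ ∧
    (∀ a : Fin (l + r) → MvPolynomial (Fin l) K,
      ∑ i, a i • η i = 0 ↔ a ∈ Submodule.span (MvPolynomial (Fin l) K) (Set.range σ)) ∧
    (∀ j i, ∀ m, d i + m = d (Fin.natAdd l j) + 1 → (σ j i).IsHomogeneous m) ∧
    (∀ j i, d (Fin.natAdd l j) + 1 < d i → σ j i = 0) ∧
    (∀ j i, constantCoeff (σ j i) = 0)

end Pool.Agent.Lib.MP_ac8f1a_ag
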