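import Pool.Agent.Lib.MP_ac8f1a_ag.Defs
import Pool.Agent.Lib.MP_ac8f1a_ag.Algebra

/-!
The arrangement `z (x^2 - z^2) (y^2 - z^2) ((x + y)^2 - z^2)`, its logarithmic derivations,
and their relations.
-/

namespace Pool.Agent.Lib.MP_ac8f1a_ag

open MvPolynomial CategoryTheory

universe u

variable {K : Type u} [Field K]

/-- coefficient vectors of the seven linear forms -/
def cf (K : Type u) [Field K] : Fin 7 → Fin 3 → K :=
  ![![0, 0, 1], ![1, 0, -1], ![1, 0, 1], ![0, 1, -1], ![0, 1, 1], ![1, 1, -1], ![1, 1, 1]]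

/-- the seven linear forms -/
noncomputable def forms (K : Type u) [Field K] : Fin 7 → S3 K :=
  ![X 2, X 0 - X 2, X 0 + X 2, X 1 - X 2, X 1 + X 2, X 0 + X 1 - X 2, X 0 + X 1 + X 2]

lemma eval_forms (i : Fin 7) (v : Fin 3 → K) :
    eval v (forms K i) = cf K i 0 * v 0 + cf K i 1 * v 1 + cf K i 2 * v 2 := by
  fin_cases i <;> simp [forms, cf] <;> ring

lemma forms_pairwise (h2 : (2 : K) ≠ 0) (i j : Fin 7) (hij : i ≠ j) (c : K) :
    forms K i ≠ C c * forms K j := by
  intro h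
  have h0 := congrArg (eval ![1, 0, 0]) h
  have h1 := congrArg (eval ![0, 1, 0]) h
  have h2' := congrArg (eval ![0, 0, 1]) h
  rw [map_mul, eval_C, eval_forms, eval_forms] at h0 h1 h2'
  simp only [Matrix.cons_val, mul_one, mul_zero, add_zero, zero_add] at h0 h1 h2'
  fin_cases i <;> fin_cases j <;> simp [cf] at hij h0 h1 h2' <;> grind

lemma forms_isLinear (i : Fin 7) : (forms K i).IsHomogeneous 1 := by
  have hx : ∀ j : Fin 3, (X j : S3 K).IsHomogeneous 1 := fun j => isHomogeneous_X _ _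
  match i with
  | 0 => exact hx 2
  | 1 => exact (hx 0).sub (hx 2)
  | 2 => exact (hx 0).add (hx 2)
  | 3 => exact (hx 1).sub (hx 2)
  | 4 => exact (hx 1).add (hx 2)
  | 5 => exact ((hx 0).add (hx 1)).sub (hx 2)
  | 6 => exact ((hx 0).add (hx 1)).add (hx 2)

lemma forms_ne_zero (i : Fin 7) : forms K i ≠ 0 := by
  intro h
  have h0 := congrArg (eval ![1, 0, 0]) h
  have h1 := congrArg (eval ![0, 1, 0]) h
  have h2' := congrArg (eval ![0, 0, 1]) h
  rw [eval_forms] at h0 h1 h2'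
  fin_cases i <;> simp [cf] at h0 h1 h2'

/-- the arrangement -/
noncomputable def arr (K : Type u) [Field K] (h2 : (2 : K) ≠ 0) : CentralArrangement K 3 where
  card := 7
  form := forms K
  isLinear := forms_isLinear
  ne_zero := forms_ne_zero
  pairwise := forms_pairwise h2

lemma arr_Q (h2 : (2 : K) ≠ 0) : (arr K h2).Q = X 2 * q1 * q2 * q3 := by
  have : (arr K h2).Q = ∏ i : Fin 7, forms K i := rfl
  rw [this]
  simp only [Fin.prod_univ_succ, forms, q1, q2, q3]
  simp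
  ring

lemma mem_arr_D (h2 : (2 : K) ≠ 0) (θ : Der K 3) :
    θ ∈ (arr K h2).D ↔ ∀ i : Fin 7, forms K i ∣ θ (forms K i) := Iff.rfl

/-- the four generators: the Euler derivation, `q1 q3 ∂x`, `q2 q3 ∂y`, `q1 q2 (∂x - ∂y)` -/
noncomputable def gens (K : Type u) [Field K] : Fin 4 → Der K 3 :=
  ![mkDerivation K X, mkDerivation K ![q1 * q3, 0, 0], mkDerivation K ![0, q2 * q3, 0],
    mkDerivation K ![q1 * q2, -(q1 * q2), 0]]

/-- the map `S^4 → Der` given by the generators -/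
noncomputable def E (K : Type u) [Field K] : (Fin 4 → S3 K) →ₗ[S3 K] Der K 3 :=
  Fintype.linearCombination (S3 K) (gens K)

lemma E_apply (v : Fin 4 → S3 K) : E K v = ∑ i, v i • gens K i := rfl

lemma E_apply_0 (v : Fin 4 → S3 K) :
    E K v (X 0) = v 0 * X 0 + q1 * (q3 * v 1 + q2 * v 3) := by
  rw [E_apply]
  simp [Fin.sum_univ_succ, gens, Derivation.coe_add, Derivation.coe_smul, mkDerivation_X]
  ring

lemma E_apply_1 (v : Fin 4 → S3 K) :
    E K v (X 1) = v 0 * X 1 + q2 * (q3 * v 2 - q1 * v 3) := by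
  rw [E_apply]
  simp [Fin.sum_univ_succ, gens, Derivation.coe_add, Derivation.coe_smul, mkDerivation_X]
  ring

lemma E_apply_2 (v : Fin 4 → S3 K) :
    E K v (X 2) = v 0 * X 2 := by
  rw [E_apply]
  simp [Fin.sum_univ_succ, gens, Derivation.coe_add, Derivation.coe_smul, mkDerivation_X]

/-- the relation vector -/
noncomputable def rel (K : Type u) [Field K] : Fin 4 → S3 K := ![0, -q2, q1, q3]

lemma der_ext {θ θ' : Der K 3} (h0 : θ (X 0) = θ' (X 0)) (h1 : θ (X 1) = θ' (X 1))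
    (h2 : θ (X 2) = θ' (X 2)) : θ = θ' := by
  apply derivation_ext
  intro i
  fin_cases i
  · exact h0
  · exact h1
  · exact h2

lemma E_eq_zero_iff (h2 : (2 : K) ≠ 0) (v : Fin 4 → S3 K) :
    E K v = 0 ↔ ∃ t : S3 K, v = t • rel K := by
  constructor
  · intro h
    have e0 := E_apply_0 v
    have e1 := E_apply_1 v
    have e2 := E_apply_2 v
    rw [h] at e0 e1 e2
    simp only [Derivation.coe_zero, Pi.zero_apply] at e0 e1 e2
    have v0 : v 0 = 0 := by
      rcases mul_eq_zero.mp e2.symm with h | h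
      · exact h
      · exact absurd h (X_ne_zero _)
    rw [v0, zero_mul, zero_add] at e0 e1
    have f0 : q3 * v 1 + q2 * v 3 = 0 := by
      rcases mul_eq_zero.mp e0.symm with h | h
      · exact absurd h q1_ne_zero
      · exact h
    have f1 : q3 * v 2 - q1 * v 3 = 0 := by
      rcases mul_eq_zero.mp e1.symm with h | h
      · exact absurd h q2_ne_zero
      · exact h
    obtain ⟨t, h1, h2', h3⟩ := koszul2 h2 f0 f1
    refine ⟨t, ?_⟩
    funext i
    fin_cases i
    · simp [rel, v0]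
    · simp [rel, h1]; ring
    · simp [rel, h2']; ring
    · simp [rel, h3]; ring
  · rintro ⟨t, rfl⟩
    apply der_ext
    · rw [E_apply_0]; simp [rel]; right; ring
    · rw [E_apply_1]; simp [rel]; right; ring
    · rw [E_apply_2]; simp [rel]

lemma gens_mem (h2 : (2 : K) ≠ 0) (i : Fin 4) : gens K i ∈ (arr K h2).D := by
  rw [mem_arr_D]
  intro j
  fin_cases i <;> fin_cases j <;>
    simp [forms, gens, mkDerivation_X]
  · exact ⟨(X 0 + X 2) * q3, by simp only [q1]; ring⟩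
  · exact ⟨(X 0 - X 2) * q3, by simp only [q1]; ring⟩
  · exact ⟨q1 * (X 0 + X 1 + X 2), by simp only [q3]; ring⟩
  · exact ⟨q1 * (X 0 + X 1 - X 2), by simp only [q3]; ring⟩
  · exact ⟨(X 1 + X 2) * q3, by simp only [q2]; ring⟩
  · exact ⟨(X 1 - X 2) * q3, by simp only [q2]; ring⟩
  · exact ⟨q2 * (X 0 + X 1 + X 2), by simp only [q3]; ring⟩
  · exact ⟨q2 * (X 0 + X 1 - X 2), by simp only [q3]; ring⟩
  · exact ⟨(X 0 + X 2) * q2, by simp only [q1]; ring⟩
  · exact ⟨(X 0 - X 2) * q2, by simp only [q1]; ring⟩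
  · exact ⟨(X 1 + X 2) * q1, by simp only [q2]; ring⟩
  · exact ⟨(X 1 - X 2) * q1, by simp only [q2]; ring⟩

lemma exists_E_of_mem (h2 : (2 : K) ≠ 0) (h3 : (3 : K) ≠ 0) {θ : Der K 3}
    (h : θ ∈ (arr K h2).D) : ∃ v, E K v = θ := by
  rw [mem_arr_D] at h
  have d0 := h 0
  have d1 := h 1
  have d2 := h 2
  have d3 := h 3
  have d4 := h 4
  have d5 := h 5
  have d6 := h 6
  simp only [forms, Matrix.cons_val, map_add, map_sub] at d0 d1 d2 d3 d4 d5 d6
  obtain ⟨s, hs⟩ := d0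
  set f := θ (X 0) - s * X 0 with hf
  set g := θ (X 1) - s * X 1 with hg
  have hq1 : q1 ∣ f := by
    refine q1_dvd h2 ?_ ?_
    · have : f = (θ (X 0) - θ (X 2)) - (X 0 - X 2) * s := by rw [hf, hs]; ring
      rw [this]
      exact dvd_sub d1 (Dvd.intro _ rfl)
    · have : f = (θ (X 0) + θ (X 2)) - (X 0 + X 2) * s := by rw [hf, hs]; ring
      rw [this]
      exact dvd_sub d2 (Dvd.intro _ rfl)
  have hq2 : q2 ∣ g := by
    refine q2_dvd h2 ?_ ?_
    · have : g = (θ (X 1) - θ (X 2)) - (X 1 - X 2) * s := by rw [hg, hs]; ring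
      rw [this]
      exact dvd_sub d3 (Dvd.intro _ rfl)
    · have : g = (θ (X 1) + θ (X 2)) - (X 1 + X 2) * s := by rw [hg, hs]; ring
      rw [this]
      exact dvd_sub d4 (Dvd.intro _ rfl)
  have hq3 : q3 ∣ f + g := by
    refine q3_dvd h2 ?_ ?_
    · have : f + g = (θ (X 0) + θ (X 1) - θ (X 2)) - (X 0 + X 1 - X 2) * s := by
        rw [hf, hg, hs]; ring
      rw [this]
      exact dvd_sub d5 (Dvd.intro _ rfl)
    · have : f + g = (θ (X 0) + θ (X 1) + θ (X 2)) - (X 0 + X 1 + X 2) * s := by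
        rw [hf, hg, hs]; ring
      rw [this]
      exact dvd_sub d6 (Dvd.intro _ rfl)
  obtain ⟨a, ha⟩ := hq1
  obtain ⟨b, hb⟩ := hq2
  obtain ⟨c, hc⟩ := hq3
  rw [ha, hb] at hc
  obtain ⟨u, v, w, hu, hv⟩ := koszul h2 h3 hc
  refine ⟨![s, u, v, w], ?_⟩
  apply der_ext
  · rw [E_apply_0]
    simp only [Matrix.cons_val]
    rw [← hu]
    linear_combination hf - ha
  · rw [E_apply_1]
    simp only [Matrix.cons_val]
    rw [← hv]
    linear_combination hg - hb
  · rw [E_apply_2]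
    simp only [Matrix.cons_val]
    rw [hs]; ring

lemma range_E (h2 : (2 : K) ≠ 0) (h3 : (3 : K) ≠ 0) :
    LinearMap.range (E K) = (arr K h2).D := by
  apply le_antisymm
  · rintro θ ⟨v, rfl⟩
    rw [E_apply]
    exact Submodule.sum_mem _ fun i _ => Submodule.smul_mem _ _ (gens_mem h2 i)
  · intro θ hθ
    obtain ⟨v, hv⟩ := exists_E_of_mem h2 h3 hθ
    exact ⟨v, hv⟩

end Pool.Agent.Lib.MP_ac8f1a_ag
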