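import Pool.Agent.Lib.MP_ac8f1a_ag.Shape

/-!
The arrangement `z (x^2 - z^2) (y^2 - z^2) ((x + y)^2 - z^2)` satisfies the hypotheses (H).
-/

namespace Pool.Agent.Lib.MP_ac8f1a_ag

open MvPolynomial CategoryTheory

universe u

variable {K : Type u} [Field K]

/-- coordinates of the derivations used in (H) -/
noncomputable def tv (K : Type u) [Field K] : Fin 4 → Fin 4 → S3 K :=
  ![![1, 0, 0, 0], ![X 2 ^ 3, 1, 0, 0], ![0, 0, 0, 1], ![0, 0, 1, 0]]

/-- the derivations used in (H) -/
noncomputable def th (K : Type u) [Field K] (i : Fin 4) : Der K 3 := E K (tv K i)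

/-- the polynomials `g` in (H) -/
noncomputable def gg (K : Type u) [Field K] : Fin 4 → S3 K :=
  ![-(X 2 ^ 3 * q2), q2, -q3, -q1]

lemma th_mem (h2 : (2 : K) ≠ 0) (h3 : (3 : K) ≠ 0) (i : Fin 4) : th K i ∈ (arr K h2).D := by
  rw [← range_E h2 h3]
  exact ⟨_, rfl⟩

lemma hX (i : Fin 3) : (X i : S3 K).IsHomogeneous 1 := isHomogeneous_X _ _

/-- the coefficient matrix -/
noncomputable def tm (K : Type u) [Field K] : Fin 4 → Fin 3 → S3 K :=
  ![![X 0, X 1, X 2], ![X 2 ^ 3 * X 0 + q1 * q3, X 2 ^ 3 * X 1, X 2 ^ 3 * X 2],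
      ![q1 * q2, -(q2 * q1), 0], ![0, q2 * q3, 0]]

lemma th_apply (i : Fin 4) (j : Fin 3) : th K i (X j) = tm K i j := by
  match j with
  | 0 =>
    rw [th, E_apply_0]
    fin_cases i <;> simp [tv, tm]
  | 1 =>
    rw [th, E_apply_1]
    fin_cases i <;> simp [tv, tm]
  | 2 =>
    rw [th, E_apply_2]
    fin_cases i <;> simp [tv, tm]

lemma th_homog (i : Fin 4) : ∃ d, IsHomogeneousDer (th K i) d := by
  have z : ∀ n, (0 : S3 K).IsHomogeneous n := fun n => isHomogeneous_zero _ _ _
  have key : ∀ d, (∀ j, (tm K i j).IsHomogeneous d) → ∃ d, IsHomogeneousDer (th K i) d := by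
    intro d h
    refine ⟨d, fun j => ?_⟩
    rw [th_apply]
    exact h j
  match i with
  | 0 =>
    refine key 1 fun j => ?_
    fin_cases j <;> simp only [tm, Matrix.cons_val, Fin.reduceFinMk, Fin.zero_eta, Fin.mk_one]
    · exact hX 0
    · exact hX 1
    · exact hX 2
  | 1 =>
    refine key 4 fun j => ?_
    fin_cases j <;> simp only [tm, Matrix.cons_val, Fin.reduceFinMk, Fin.zero_eta, Fin.mk_one]
    · exact (((hX 2).pow 3).mul (hX 0)).add (q1_homog.mul q3_homog)
    · exact ((hX 2).pow 3).mul (hX 1)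
    · exact ((hX 2).pow 3).mul (hX 2)
  | 2 =>
    refine key 4 fun j => ?_
    fin_cases j <;> simp only [tm, Matrix.cons_val, Fin.reduceFinMk, Fin.zero_eta, Fin.mk_one]
    · exact q1_homog.mul q2_homog
    · exact (q2_homog.mul q1_homog).neg
    · exact z 4
  | 3 =>
    refine key 4 fun j => ?_
    fin_cases j <;> simp only [tm, Matrix.cons_val, Fin.reduceFinMk, Fin.zero_eta, Fin.mk_one]
    · exact z 4
    · exact q2_homog.mul q3_homog
    · exact z 4

lemma det_eq (h2 : (2 : K) ≠ 0) (i : Fin 4) :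
    (-1) ^ ((i : ℕ) + 1) * ((coeffMatrix (th K)).submatrix i.succAbove id).det
      = gg K i * (arr K h2).Q := by
  rw [arr_Q, Matrix.det_fin_three]
  simp only [Matrix.submatrix_apply, coeffMatrix, Matrix.of_apply, th_apply, id]
  fin_cases i <;> simp [gg, tm, Fin.succAbove] <;> ring

lemma constantCoeff_sbst (t p : S3 K) (i : Fin 3) (ht : constantCoeff t = 0) :
    constantCoeff (sbst i t p) = constantCoeff p := by
  induction p using MvPolynomial.induction_on with
  | C a => simp [sbst, algebraMap_eq]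
  | add p q hp hq => rw [map_add, map_add, map_add, hp, hq]
  | mul_X p j hp =>
    rw [map_mul, map_mul, map_mul, hp]
    by_cases h : j = i
    · subst h
      rw [sbst_self, ht]; simp
    · rw [sbst_ne i j h]

lemma no_common (h3 : (3 : K) ≠ 0) :
    ¬ HasCommonDivisorMod (fun i : Fin 3 => gg K i.castSucc) (gg K (Fin.last 3)) := by
  rintro ⟨h, ⟨n, hn, hh⟩, hmem⟩
  have hcc : constantCoeff h = 0 := by
    rw [← mem_iff_constantCoeff]
    have := mem_pow_of_isHomogeneous hh
    exact Ideal.pow_le_self (by omega) this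
  have m1 : q2 ∈ Ideal.span {h, -q1} := hmem 1
  have m2 : -q3 ∈ Ideal.span {h, -q1} := hmem 2
  rw [Ideal.mem_span_pair] at m1 m2
  obtain ⟨a, b, hab⟩ := m1
  obtain ⟨a', b', hab'⟩ := m2
  set φ := sbst (K := K) (0 : Fin 3) (X 2) with hφ
  have φ0 : φ (X 0) = X 2 := sbst_self _ _
  have φ1 : φ (X 1) = X 1 := sb01 _
  have φ2 : φ (X 2) = X 2 := sb02 _
  have e1 := congrArg φ hab
  have e2 := congrArg φ hab'
  simp only [q1, q2, q3, map_add, map_mul, map_neg, map_sub, map_pow, φ0, φ1, φ2] at e1 e2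
  set s := φ h with hs
  have hsc : constantCoeff s = 0 := by
    rw [hs, hφ, constantCoeff_sbst _ _ _ (by simp), hcc]
  have hdvd : s ∣ X 2 ^ 3 := by
    have h33 : s ∣ 3 * X 2 ^ 3 := by
      refine ⟨-(φ a * (2 * X 1 + 3 * X 2) + φ a' * (2 * X 1 - X 2)), ?_⟩
      linear_combination (2 * X 1 + 3 * X 2) * e1 + (2 * X 1 - X 2) * e2
    have hC : (C (3 : K)⁻¹ : S3 K) * 3 = 1 := by
      have : (3 : S3 K) = C 3 := (map_ofNat C 3).symm
      rw [this, ← C_mul, inv_mul_cancel₀ h3, C_1]
    have e3 : (X 2 ^ 3 : S3 K) = C (3 : K)⁻¹ * (3 * X 2 ^ 3) := by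
      rw [← mul_assoc, hC, one_mul]
    rw [e3]
    exact Dvd.dvd.mul_left h33 _
  obtain ⟨k, hk, hass⟩ := (dvd_prime_pow (X_prime (σ := Fin 3) (R := K) (i := 2)) 3).mp hdvd
  rcases Nat.eq_zero_or_pos k with rfl | hkpos
  · rw [pow_zero] at hass
    have hu : IsUnit s := by
      rw [associated_one_iff_isUnit] at hass
      exact hass
    have := hu.map (constantCoeff (σ := Fin 3) (R := K))
    rw [hsc] at this
    exact not_isUnit_zero this
  · have hz : (X 2 : S3 K) ∣ s := by
      have : (X 2 : S3 K) ∣ X 2 ^ k := dvd_pow_self _ (by omega)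
      exact this.trans hass.dvd'
    have hy : (X 2 : S3 K) ∣ X 1 ^ 2 := by
      have : (X 1 ^ 2 : S3 K) = φ a * s + X 2 * X 2 := by linear_combination -e1
      rw [this]
      exact dvd_add (Dvd.dvd.mul_left hz _) (Dvd.intro _ rfl)
    have hy1 := (X_prime (σ := Fin 3) (R := K) (i := 2)).dvd_of_dvd_pow hy
    rw [X_dvd_X] at hy1
    exact absurd hy1 (by decide)

/-- the surjection `S^4 → D(A)` -/
noncomputable def ED (h2 : (2 : K) ≠ 0) (h3 : (3 : K) ≠ 0) :
    (Fin 4 → S3 K) →ₗ[S3 K] (arr K h2).D :=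
  (E K).codRestrict _ (fun v => by rw [← range_E h2 h3]; exact ⟨v, rfl⟩)

lemma ED_surjective (h2 : (2 : K) ≠ 0) (h3 : (3 : K) ≠ 0) :
    Function.Surjective (ED h2 h3) := by
  rintro ⟨θ, hθ⟩
  obtain ⟨v, hv⟩ := exists_E_of_mem h2 h3 hθ
  exact ⟨v, Subtype.ext hv⟩

lemma ED_eq_zero_iff (h2 : (2 : K) ≠ 0) (h3 : (3 : K) ≠ 0) (v : Fin 4 → S3 K) :
    ED h2 h3 v = 0 ↔ ∃ t : S3 K, v = t • rel K := by
  rw [← E_eq_zero_iff h2]
  exact ⟨fun h => congrArg Subtype.val h, fun h => Subtype.ext h⟩

lemma rel_ne_zero : rel K ≠ 0 := by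
  intro h
  have := congrFun h 2
  simp [rel] at this
  exact q1_ne_zero this

lemma not_projective (h2 : (2 : K) ≠ 0) (h3 : (3 : K) ≠ 0) :
    ¬ Module.Projective (S3 K) (arr K h2).D := by
  intro hp
  obtain ⟨s, hs⟩ := Module.projective_lifting_property (ED h2 h3) LinearMap.id
    (ED_surjective h2 h3)
  -- the retraction onto the kernel
  have hker : ∀ v, ∃ t : S3 K, v - s (ED h2 h3 v) = t • rel K := by
    intro v
    rw [← ED_eq_zero_iff h2 h3, map_sub, sub_eq_zero]
    have := LinearMap.congr_fun hs (ED h2 h3 v)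
    simpa using this.symm
  choose t ht using fun j : Fin 4 => hker (Pi.single j 1)
  have hrel0 : ED h2 h3 (rel K) = 0 := (ED_eq_zero_iff h2 h3 _).mpr ⟨1, by simp⟩
  have e1 : rel K = ∑ j, rel K j • (Pi.single j 1 : Fin 4 → S3 K) := by
    funext k
    rw [Finset.sum_apply, Finset.sum_eq_single k]
    · simp
    · intro b _ hb
      simp [Pi.single_eq_of_ne (Ne.symm hb)]
    · simp
  have e2 : rel K = (∑ j, rel K j * t j) • rel K := by
    have : rel K - s (ED h2 h3 (rel K)) = (∑ j, rel K j * t j) • rel K := by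
      conv_lhs => rw [e1]
      rw [map_sum, map_sum, ← Finset.sum_sub_distrib, Finset.sum_smul]
      apply Finset.sum_congr rfl
      intro j _
      rw [map_smul, map_smul, ← smul_sub, ht, mul_smul]
    rwa [hrel0, map_zero, sub_zero] at this
  have e3 := congrFun e2 2
  rw [Pi.smul_apply, smul_eq_mul] at e3
  have e4 : (∑ j, rel K j * t j) = 1 := by
    have hr : rel K 2 = q1 := by simp [rel]
    rw [hr] at e3
    have : (q1 : S3 K) * ((∑ j, rel K j * t j) - 1) = 0 := by linear_combination -e3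
    have := (mul_eq_zero.mp this).resolve_left q1_ne_zero
    linear_combination this
  have e5 := congrArg constantCoeff e4
  rw [map_sum, map_one] at e5
  simp only [map_mul, (mem_iff_constantCoeff (n := 3)).mp (rel_mem (K := K) _), zero_mul,
    Finset.sum_const_zero] at e5
  exact zero_ne_one e5

lemma pd_eq_one (h2 : (2 : K) ≠ 0) (h3 : (3 : K) ≠ 0) :
    projectiveDimension (ModuleCat.of (S3 K) (arr K h2).D) = 1 := by
  apply le_antisymm
  · have : projectiveDimension (ModuleCat.of (S3 K) (arr K h2).D) ≤ (1 : ℕ) := by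
      rw [projectiveDimension_le_iff]
      let f : S3 K →ₗ[S3 K] (Fin 4 → S3 K) := LinearMap.toSpanSingleton (S3 K) _ (rel K)
      have hfg : (ED h2 h3).comp f = 0 := by
        apply LinearMap.ext
        intro x
        exact (ED_eq_zero_iff h2 h3 _).mpr ⟨x, rfl⟩
      let SC := ModuleCat.shortComplexOfCompEqZero (R := S3 K) (M := S3 K)
        (N := Fin 4 → S3 K) (L := (arr K h2).D) f (ED h2 h3) hfg
      have hSC : SC.ShortExact := by
        refine ModuleCat.shortComplex_shortExact SC ?_ ?_ ?_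
        · intro v
          constructor
          · intro hv
            obtain ⟨t, ht⟩ := (ED_eq_zero_iff h2 h3 v).mp hv
            exact ⟨t, ht.symm⟩
          · rintro ⟨t, rfl⟩
            exact (ED_eq_zero_iff h2 h3 _).mpr ⟨t, rfl⟩
        · exact smul_left_injective (S3 K) rel_ne_zero
        · exact ED_surjective h2 h3
      have p1 : Projective (ModuleCat.of (S3 K) (S3 K)) :=
        (IsProjective.iff_projective (S3 K)).mp inferInstance
      have p2 : Projective (ModuleCat.of (S3 K) (Fin 4 → S3 K)) :=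
        (IsProjective.iff_projective (Fin 4 → S3 K)).mp inferInstance
      have p1' : Projective SC.X₁ := p1
      have p2' : Projective SC.X₂ := p2
      exact hSC.hasProjectiveDimensionLT_X₃ 1 inferInstance inferInstance
    simpa using this
  · have : ((1 : ℕ) : WithBot ℕ∞) ≤ projectiveDimension (ModuleCat.of (S3 K) (arr K h2).D) := by
      rw [projectiveDimension_ge_iff, ← projective_iff_hasProjectiveDimensionLT_one,
        ← IsProjective.iff_projective]
      exact not_projective h2 h3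
    simpa using this

lemma hypH (h2 : (2 : K) ≠ 0) (h3 : (3 : K) ≠ 0) : HypH (arr K h2) (th K) (gg K) where
  mem := th_mem h2 h3
  homog := th_homog
  det_eq := det_eq h2
  last_ne_zero := by
    have : gg K (Fin.last 3) = -q1 := rfl
    rw [this]
    exact neg_ne_zero.mpr q1_ne_zero
  pos := by
    intro i
    match i with
    | 0 => exact ⟨5, by norm_num, (((hX 2).pow 3).mul q2_homog).neg⟩
    | 1 => exact ⟨2, by norm_num, q2_homog⟩
    | 2 => exact ⟨2, by norm_num, q3_homog.neg⟩
  no_divisor := no_common h3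
  pd_eq_one := pd_eq_one h2 h3

lemma gg_ne_zero (i : Fin 4) : gg K i ≠ 0 := by
  match i with
  | 0 => exact neg_ne_zero.mpr (mul_ne_zero (pow_ne_zero _ (X_ne_zero _)) q2_ne_zero)
  | 1 => exact q2_ne_zero
  | 2 => exact neg_ne_zero.mpr q3_ne_zero
  | 3 => exact neg_ne_zero.mpr q1_ne_zero

end Pool.Agent.Lib.MP_ac8f1a_ag
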