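import Pool.Agent.Lib.MP_ac8f1a_ag.Gens

/-!
The arrangement `z (x^2 - z^2) (y^2 - z^2) ((x + y)^2 - z^2)` has no resolution of the shape
asked for.
-/

namespace Pool.Agent.Lib.MP_ac8f1a_ag

open MvPolynomial CategoryTheory

universe u

variable {K : Type u} [Field K]

section order

variable {n : ℕ}

lemma mem_pow_of_isHomogeneous {F : MvPolynomial (Fin n) K} {k : ℕ} (h : F.IsHomogeneous k) :
    F ∈ idealOfVars (Fin n) K ^ k := by
  rw [mem_pow_idealOfVars_iff']
  intro x hx
  exact h.coeff_eq_zero (by omega)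

lemma eq_zero_of_mem_pow {F : MvPolynomial (Fin n) K} {k m : ℕ} (h : F.IsHomogeneous k)
    (hm : F ∈ idealOfVars (Fin n) K ^ m) (hk : k < m) : F = 0 := by
  rw [mem_pow_idealOfVars_iff'] at hm
  ext x
  rw [coeff_zero]
  by_cases hx : x.degree = k
  · exact hm x (by omega)
  · exact h.coeff_eq_zero hx

lemma eq_zero_of_sub_mem {P Pk : MvPolynomial (Fin n) K} {k m : ℕ} (h : P.IsHomogeneous m)
    (hk : Pk.IsHomogeneous k) (hs : P - Pk ∈ idealOfVars (Fin n) K ^ (k + 1)) (hne : m ≠ k) :
    Pk = 0 := by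
  rw [mem_pow_idealOfVars_iff'] at hs
  ext x
  rw [coeff_zero]
  by_cases hx : x.degree = k
  · have h1 := hs x (by omega)
    rw [coeff_sub, h.coeff_eq_zero (by omega), zero_sub, neg_eq_zero] at h1
    exact h1
  · exact hk.coeff_eq_zero hx

lemma mem_iff_constantCoeff {F : MvPolynomial (Fin n) K} :
    F ∈ idealOfVars (Fin n) K ↔ constantCoeff F = 0 := by
  rw [← pow_one (idealOfVars (Fin n) K), mem_pow_idealOfVars_iff']
  constructor
  · intro h
    exact h 0 (by simp)
  · intro h x hx
    have : x = 0 := by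
      have : x.degree = 0 := by omega
      simpa [Finsupp.degree_eq_zero_iff] using this
    rw [this]
    exact h

lemma sub_C_constantCoeff_mem (F : MvPolynomial (Fin n) K) :
    F - C (constantCoeff F) ∈ idealOfVars (Fin n) K := by
  rw [mem_iff_constantCoeff]
  simp

end order

lemma q1_homog : (q1 : S3 K).IsHomogeneous 2 :=
  ((isHomogeneous_X _ _).pow 2).sub ((isHomogeneous_X _ _).pow 2)

lemma q2_homog : (q2 : S3 K).IsHomogeneous 2 :=
  ((isHomogeneous_X _ _).pow 2).sub ((isHomogeneous_X _ _).pow 2)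

lemma q3_homog : (q3 : S3 K).IsHomogeneous 2 :=
  (((isHomogeneous_X _ _).add (isHomogeneous_X _ _)).pow 2).sub ((isHomogeneous_X _ _).pow 2)

lemma rel_mem_sq (i : Fin 4) : rel K i ∈ idealOfVars (Fin 3) K ^ 2 := by
  fin_cases i
  · simp [rel]
  · simpa [rel] using mem_pow_of_isHomogeneous q2_homog
  · simpa [rel] using mem_pow_of_isHomogeneous q1_homog
  · simpa [rel] using mem_pow_of_isHomogeneous q3_homog

lemma rel_mem (i : Fin 4) : rel K i ∈ idealOfVars (Fin 3) K :=
  Ideal.pow_le_self two_ne_zero (rel_mem_sq i)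

/-- degree information on homogeneous elements of the image of `E` -/
lemma degree_facts {v : Fin 4 → S3 K} {d : ℕ} (h : IsHomogeneousDer (E K v) d) :
    (d ≠ 1 → constantCoeff (v 0) = 0) ∧
    (d ≠ 4 → constantCoeff (v 1) = 0 ∧ constantCoeff (v 2) = 0 ∧ constantCoeff (v 3) = 0) := by
  constructor
  · intro hd
    have h2 := h 2
    rw [E_apply_2] at h2
    have hz : (C (constantCoeff (v 0)) * X 2 : S3 K) = 0 := by
      refine eq_zero_of_sub_mem h2 (k := 1) ?_ ?_ hd
      · exact isHomogeneous_C_mul_X _ _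
      · rw [← sub_mul, pow_add, pow_one]
        exact Ideal.mul_mem_mul (sub_C_constantCoeff_mem _)
          (Ideal.subset_span ⟨2, rfl⟩)
    rcases mul_eq_zero.mp hz with h | h
    · simpa using h
    · exact absurd h (X_ne_zero _)
  · intro hd
    have hX : ∀ i : Fin 3, (X i : S3 K).IsHomogeneous 1 := fun i => isHomogeneous_X _ _
    have hx : (X 2 * q1 * (q3 * v 1 + q2 * v 3) : S3 K).IsHomogeneous (1 + d) := by
      have := ((hX 2).mul (h 0)).sub ((hX 0).mul (h 2))
      rw [E_apply_0, E_apply_2] at this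
      have e : (X 2 * q1 * (q3 * v 1 + q2 * v 3) : S3 K) =
        X 2 * (v 0 * X 0 + q1 * (q3 * v 1 + q2 * v 3)) - X 0 * (v 0 * X 2) := by ring
      rw [e]
      exact this
    have hy : (X 2 * q2 * (q3 * v 2 - q1 * v 3) : S3 K).IsHomogeneous (1 + d) := by
      have := ((hX 2).mul (h 1)).sub ((hX 1).mul (h 2))
      rw [E_apply_1, E_apply_2] at this
      have e : (X 2 * q2 * (q3 * v 2 - q1 * v 3) : S3 K) =
        X 2 * (v 0 * X 1 + q2 * (q3 * v 2 - q1 * v 3)) - X 1 * (v 0 * X 2) := by ring
      rw [e]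
      exact this
    have hC : ∀ a : K, (C a : S3 K).IsHomogeneous 0 := fun a => isHomogeneous_C _ _
    have zx : (X 2 * q1 * (q3 * C (constantCoeff (v 1)) + q2 * C (constantCoeff (v 3)) : S3 K))
        = 0 := by
      refine eq_zero_of_sub_mem hx (k := 5) ?_ ?_ (by omega)
      · exact ((hX 2).mul q1_homog).mul ((q3_homog.mul (hC _)).add (q2_homog.mul (hC _)))
      · have e : X 2 * q1 * (q3 * v 1 + q2 * v 3) -
          X 2 * q1 * (q3 * C (constantCoeff (v 1)) + q2 * C (constantCoeff (v 3))) =
          (X 2 * q1 * q3) * (v 1 - C (constantCoeff (v 1))) +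
          (X 2 * q1 * q2) * (v 3 - C (constantCoeff (v 3))) := by ring
        rw [e, pow_add, pow_one]
        refine Ideal.add_mem _ (Ideal.mul_mem_mul ?_ (sub_C_constantCoeff_mem _))
          (Ideal.mul_mem_mul ?_ (sub_C_constantCoeff_mem _))
        · exact mem_pow_of_isHomogeneous (((hX 2).mul q1_homog).mul q3_homog)
        · exact mem_pow_of_isHomogeneous (((hX 2).mul q1_homog).mul q2_homog)
    have zy : (X 2 * q2 * (q3 * C (constantCoeff (v 2)) - q1 * C (constantCoeff (v 3)) : S3 K))
        = 0 := by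
      refine eq_zero_of_sub_mem hy (k := 5) ?_ ?_ (by omega)
      · exact ((hX 2).mul q2_homog).mul ((q3_homog.mul (hC _)).sub (q1_homog.mul (hC _)))
      · have e : X 2 * q2 * (q3 * v 2 - q1 * v 3) -
          X 2 * q2 * (q3 * C (constantCoeff (v 2)) - q1 * C (constantCoeff (v 3))) =
          (X 2 * q2 * q3) * (v 2 - C (constantCoeff (v 2))) -
          (X 2 * q2 * q1) * (v 3 - C (constantCoeff (v 3))) := by ring
        rw [e, pow_add, pow_one]
        refine Ideal.sub_mem _ (Ideal.mul_mem_mul ?_ (sub_C_constantCoeff_mem _))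
          (Ideal.mul_mem_mul ?_ (sub_C_constantCoeff_mem _))
        · exact mem_pow_of_isHomogeneous (((hX 2).mul q2_homog).mul q3_homog)
        · exact mem_pow_of_isHomogeneous (((hX 2).mul q2_homog).mul q1_homog)
    have zx' := (mul_eq_zero.mp zx).resolve_left (mul_ne_zero (X_ne_zero _) q1_ne_zero)
    have zy' := (mul_eq_zero.mp zy).resolve_left (mul_ne_zero (X_ne_zero _) q2_ne_zero)
    have c1 : constantCoeff (v 1) = 0 := by
      have := congrArg (eval ![1, 0, 0]) zx'
      simpa [q1, q2, q3] using this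
    have c3 : constantCoeff (v 3) = 0 := by
      have := congrArg (eval ![0, 1, 0]) zx'
      simpa [q1, q2, q3, c1] using this
    have c2 : constantCoeff (v 2) = 0 := by
      have := congrArg (eval ![0, 1, 0]) zy'
      simpa [q1, q2, q3, c3] using this
    exact ⟨c1, c2, c3⟩

lemma smul_der_eq_zero {s : S3 K} {θ : Der K 3} (h : s • θ = 0) : s = 0 ∨ θ = 0 := by
  by_cases hs : s = 0
  · exact Or.inl hs
  · right
    have : ∀ i, θ (X i) = 0 := by
      intro i
      have := congrArg (fun D : Der K 3 => D (X i)) h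
      simp only [Derivation.coe_smul, Pi.smul_apply, smul_eq_mul, Derivation.coe_zero,
        Pi.zero_apply] at this
      exact (mul_eq_zero.mp this).resolve_left hs
    apply der_ext <;> simp [this]

lemma not_hasShape (h2 : (2 : K) ≠ 0) (h3 : (3 : K) ≠ 0) : ¬ HasShape (arr K h2) := by
  rintro ⟨r, d, η, σ, hhom, hspan, hlin, hrel, hdeg, hdeg0, hmin⟩
  classical
  -- all relations have entries in the maximal ideal
  have hrel_cc : ∀ a : Fin (3 + r) → S3 K, ∑ i, a i • η i = 0 → ∀ i, constantCoeff (a i) = 0 := by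
    intro a ha i
    have := (hrel a).mp ha
    clear ha
    induction this using Submodule.span_induction with
    | mem x hx =>
      obtain ⟨j, rfl⟩ := hx
      exact hmin j i
    | zero => simp
    | add x y _ _ hx hy => simp [hx, hy]
    | smul c x _ hx => simp [hx]
  -- coordinates
  have hηE : ∀ i, ∃ a : Fin 4 → S3 K, E K a = η i := by
    intro i
    apply exists_E_of_mem h2 h3
    rw [← hspan]
    exact Submodule.subset_span ⟨i, rfl⟩
  choose a ha using hηE
  have hgE : ∀ j, ∃ b : Fin (3 + r) → S3 K, ∑ i, b i • η i = gens K j := by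
    intro j
    have := gens_mem h2 j
    rw [← hspan, Submodule.mem_span_range_iff_exists_fun] at this
    exact this
  choose b hb using hgE
  set A0 : Matrix (Fin (3 + r)) (Fin 4) K := Matrix.of fun i j => constantCoeff (a i j) with hA0
  set B0 : Matrix (Fin 4) (Fin (3 + r)) K := Matrix.of fun j i => constantCoeff (b j i) with hB0
  set L : (Fin (3 + r) → S3 K) →ₗ[S3 K] Der K 3 := Fintype.linearCombination (S3 K) η with hL
  have hLapp : ∀ a, L a = ∑ i, a i • η i := fun a => rfl
  have hLsingle : ∀ i, L (Pi.single i 1) = η i := by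
    intro i
    rw [hL, Fintype.linearCombination_apply_single, one_smul]
  have hAB : A0 * B0 = 1 := by
    ext i l
    have h1 : L ((∑ j, a i j • b j) - Pi.single i 1) = 0 := by
      have hb' : ∀ j, L (b j) = gens K j := fun j => hb j
      rw [map_sub, map_sum, hLsingle]
      simp only [map_smul, hb']
      rw [← ha i, E_apply, sub_self]
    have h4 := hrel_cc _ h1 l
    rw [Pi.sub_apply, Finset.sum_apply, map_sub, sub_eq_zero, map_sum] at h4
    simp only [Pi.smul_apply, smul_eq_mul, map_mul] at h4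
    rw [Matrix.mul_apply, Matrix.one_apply]
    simp only [hA0, hB0, Matrix.of_apply]
    rw [h4]
    by_cases hil : i = l
    · subst hil; simp
    · rw [if_neg hil, Pi.single_eq_of_ne (Ne.symm hil), map_zero]
  have hBA : B0 * A0 = 1 := by
    ext j k
    have h1 : E K (Pi.single j 1 - ∑ i, b j i • a i) = 0 := by
      rw [map_sub, map_sum]
      simp only [map_smul, ha, hb]
      rw [E_apply, Finset.sum_eq_single j]
      · simp
      · intro b _ hb
        simp [Pi.single_eq_of_ne hb]
      · simp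
    obtain ⟨t, ht⟩ := (E_eq_zero_iff h2 _).mp h1
    have h4 := congrArg constantCoeff (congrFun ht k)
    simp only [Pi.sub_apply, Finset.sum_apply, Pi.smul_apply, smul_eq_mul, map_sub, map_sum,
      map_mul, (mem_iff_constantCoeff (n := 3)).mp (rel_mem (K := K) k), mul_zero] at h4
    rw [sub_eq_zero] at h4
    rw [Matrix.mul_apply, Matrix.one_apply]
    simp only [hA0, hB0, Matrix.of_apply]
    rw [← h4]
    by_cases hjk : j = k
    · subst hjk; simp
    · rw [if_neg hjk, Pi.single_eq_of_ne (Ne.symm hjk), map_zero]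
  -- r ≥ 1
  have hr : 0 < r := by
    by_contra hr
    have hr0 : r = 0 := by omega
    have h1 : (1 : Matrix (Fin 4) (Fin 4) K).rank ≤ B0.rank := by
      rw [← hBA]; exact Matrix.rank_mul_le_left _ _
    have h4 : B0.rank ≤ 3 + r := Matrix.rank_le_width B0
    rw [Matrix.rank_one, Fintype.card_fin] at h1
    omega
  -- degree information
  have hfacts : ∀ i, (d i ≠ 1 → A0 i 0 = 0) ∧
      (d i ≠ 4 → A0 i 1 = 0 ∧ A0 i 2 = 0 ∧ A0 i 3 = 0) := by
    intro i
    have := hhom i
    rw [← ha i] at this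
    exact degree_facts this
  have hd14 : ∀ i, d i = 1 ∨ d i = 4 := by
    intro i
    by_contra hcon
    push Not at hcon
    have h0 := (hfacts i).1 hcon.1
    obtain ⟨h1, h2', h3'⟩ := (hfacts i).2 hcon.2
    have := congrFun (congrFun hAB i) i
    rw [Matrix.mul_apply, Matrix.one_apply_eq] at this
    simp [Fin.sum_univ_succ, h0, h1, h2', h3'] at this
  have huniq : ∀ i i', d i = 1 → d i' = 1 → i = i' := by
    intro i i' hi hi'
    by_contra hne
    obtain ⟨h1, h2', h3'⟩ := (hfacts i).2 (by omega)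
    obtain ⟨g1, g2, g3⟩ := (hfacts i').2 (by omega)
    have e1 := congrFun (congrFun hAB i) i
    have e2 := congrFun (congrFun hAB i) i'
    have e3 := congrFun (congrFun hAB i') i'
    rw [Matrix.mul_apply, Matrix.one_apply_eq] at e1 e3
    rw [Matrix.mul_apply, Matrix.one_apply_ne hne] at e2
    simp [Fin.sum_univ_succ, h1, h2', h3'] at e1 e2
    simp [Fin.sum_univ_succ, g1, g2, g3] at e3
    rcases e2 with h | h
    · rw [h, zero_mul] at e1
      exact zero_ne_one e1
    · rw [h, mul_zero] at e3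
      exact zero_ne_one e3
  -- take one relation
  set j0 : Fin r := ⟨0, hr⟩
  have hσrel : ∑ i, σ j0 i • η i = 0 := (hrel _).mpr (Submodule.subset_span ⟨j0, rfl⟩)
  have hσ1 : ∀ i, σ j0 i ∈ idealOfVars (Fin 3) K := fun i =>
    mem_iff_constantCoeff.mpr (hmin j0 i)
  have hσa : ∀ j, ∑ i, σ j0 i * C (A0 i j) ∈ idealOfVars (Fin 3) K ^ 2 := by
    intro j
    have h1 : E K (∑ i, σ j0 i • a i) = 0 := by
      rw [map_sum]
      simp only [map_smul, ha, hσrel]
    obtain ⟨t, ht⟩ := (E_eq_zero_iff h2 _).mp h1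
    have h4 := congrFun ht j
    simp only [Finset.sum_apply, Pi.smul_apply, smul_eq_mul] at h4
    have h5 : ∑ i, σ j0 i * C (A0 i j) =
        ∑ i, σ j0 i * a i j - ∑ i, σ j0 i * (a i j - C (constantCoeff (a i j))) := by
      rw [← Finset.sum_sub_distrib]
      apply Finset.sum_congr rfl
      intro i _
      simp only [hA0, Matrix.of_apply]
      ring
    rw [h5, h4]
    refine Ideal.sub_mem _ (Ideal.mul_mem_left _ _ (rel_mem_sq j)) ?_
    refine Ideal.sum_mem _ fun i _ => ?_
    rw [pow_two]
    exact Ideal.mul_mem_mul (hσ1 i) (sub_C_constantCoeff_mem _)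
  have hσ2 : ∀ l, σ j0 l ∈ idealOfVars (Fin 3) K ^ 2 := by
    intro l
    have : σ j0 l = ∑ j, (∑ i, σ j0 i * C (A0 i j)) * C (B0 j l) := by
      have e1 : ∑ j, (∑ i, σ j0 i * C (A0 i j)) * C (B0 j l) =
          ∑ i, σ j0 i * C ((A0 * B0) i l) := by
        simp only [Matrix.mul_apply, map_sum, Finset.sum_mul, Finset.mul_sum]
        rw [Finset.sum_comm]
        apply Finset.sum_congr rfl
        intro i _
        apply Finset.sum_congr rfl
        intro j _
        rw [C_mul]; ring
      rw [e1, hAB, Finset.sum_eq_single l]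
      · simp
      · intro i _ hi
        rw [Matrix.one_apply_ne hi, C_0, mul_zero]
      · simp
    rw [this]
    exact Ideal.sum_mem _ fun j _ => Ideal.mul_mem_right _ _ (hσa j)
  have hσ0 : ∀ i, σ j0 i ≠ 0 → d i = 1 := by
    intro i hi
    by_contra hcon
    have hdi : d i = 4 := (hd14 i).resolve_left hcon
    apply hi
    rcases hd14 (Fin.natAdd 3 j0) with h | h
    · exact hdeg0 j0 i (by omega)
    · have := hdeg j0 i 1 (by omega)
      exact eq_zero_of_mem_pow this (hσ2 i) (by omega)
  have hne : σ j0 ≠ 0 := hlin.ne_zero j0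
  obtain ⟨i, hi⟩ : ∃ i, σ j0 i ≠ 0 := by
    by_contra hcon
    push Not at hcon
    exact hne (funext hcon)
  have hi1 := hσ0 i hi
  have hsingle : σ j0 i • η i = 0 := by
    rw [← hσrel]
    symm
    apply Finset.sum_eq_single i
    · intro i' _ hne'
      by_contra hcon
      have : σ j0 i' ≠ 0 := by
        intro h0
        rw [h0, zero_smul] at hcon
        exact hcon rfl
      exact hne' (huniq i' i (hσ0 i' this) hi1)
    · simp
  rcases smul_der_eq_zero hsingle with h | h
  · exact hi h
  · have h1 : L (Pi.single i 1) = 0 := by rw [hLsingle, h]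
    have h4 := hrel_cc _ h1 i
    simp at h4

end Pool.Agent.Lib.MP_ac8f1a_ag
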